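import Pool.Agent.Helper88.CG.Goals

/-! # The second moment of the divisor function -/

open Finset

namespace Pool.Agent.Helper37.CG

open Pool.Agent.Helper88.CG

theorem dsum (N : ℕ) (F : ℕ → ℕ → ℝ) :
    ∑ n ∈ Icc 1 N, ∑ d ∈ n.divisors, F d (n / d) = ∑ d ∈ Icc 1 N, ∑ m ∈ Icc 1 (N / d), F d m := by
  rw [Finset.sum_sigma', Finset.sum_sigma']
  refine Finset.sum_nbij' (fun x => (⟨x.2, x.1 / x.2⟩ : Σ _ : ℕ, ℕ))
    (fun x => (⟨x.1 * x.2, x.1⟩ : Σ _ : ℕ, ℕ)) ?_ ?_ ?_ ?_ ?_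
  · rintro ⟨n, d⟩ h
    simp only [mem_sigma, mem_Icc, Nat.mem_divisors] at h ⊢
    obtain ⟨⟨h1, h2⟩, h3, h4⟩ := h
    have hd : 0 < d := Nat.pos_of_dvd_of_pos h3 (by omega)
    have hdn : d ≤ n := Nat.le_of_dvd (by omega) h3
    exact ⟨⟨hd, hdn.trans h2⟩, Nat.div_pos hdn hd, Nat.div_le_div_right h2⟩
  · rintro ⟨d, m⟩ h
    simp only [mem_sigma, mem_Icc, Nat.mem_divisors] at h ⊢
    obtain ⟨⟨h1, h2⟩, h3, h4⟩ := h
    have h5 : d * m ≤ N := by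
      calc d * m ≤ d * (N / d) := Nat.mul_le_mul_left d h4
        _ ≤ N := Nat.mul_div_le N d
    have h6 : 0 < d * m := Nat.mul_pos h1 h3
    exact ⟨⟨h6, h5⟩, dvd_mul_right d m, h6.ne'⟩
  · rintro ⟨n, d⟩ h
    simp only [mem_sigma, mem_Icc, Nat.mem_divisors] at h
    obtain ⟨-, h3, -⟩ := h
    simp [Nat.mul_div_cancel' h3]
  · rintro ⟨d, m⟩ h
    simp only [mem_sigma, mem_Icc] at h
    obtain ⟨⟨h1, -⟩, -⟩ := h
    simp [Nat.mul_div_cancel_left m h1]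
  · rintro ⟨n, d⟩ h
    rfl

theorem harm (N : ℕ) : ∑ a ∈ Icc 1 N, ((a : ℝ))⁻¹ ≤ 1 + Real.log N := by
  have h := harmonic_le_one_add_log N
  rw [harmonic_eq_sum_Icc] at h
  push_cast at h
  exact h

theorem tau_sum (M : ℕ) :
    ∑ m ∈ Icc 1 M, (m.divisors.card : ℝ) ≤ M * (1 + Real.log M) := by
  have h1 : ∑ m ∈ Icc 1 M, (m.divisors.card : ℝ) =
      ∑ d ∈ Icc 1 M, ∑ m ∈ Icc 1 (M / d), (1 : ℝ) := by
    rw [← dsum M fun _ _ => 1]
    refine Finset.sum_congr rfl fun m _ => ?_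
    simp
  rw [h1]
  calc ∑ d ∈ Icc 1 M, ∑ m ∈ Icc 1 (M / d), (1 : ℝ)
      ≤ ∑ d ∈ Icc 1 M, (M : ℝ) * ((d : ℝ))⁻¹ := by
        refine Finset.sum_le_sum fun d _ => ?_
        have h2 : ((M / d : ℕ) : ℝ) ≤ (M : ℝ) / d := Nat.cast_div_le
        simpa [div_eq_mul_inv] using h2
    _ = M * ∑ d ∈ Icc 1 M, ((d : ℝ))⁻¹ := by rw [Finset.mul_sum]
    _ ≤ M * (1 + Real.log M) := mul_le_mul_of_nonneg_left (harm M) (Nat.cast_nonneg M)

theorem tau_mul_le (d m : ℕ) :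
    ((d * m).divisors.card : ℝ) ≤ d.divisors.card * m.divisors.card := by
  have h : (d * m).divisors.card ≤ d.divisors.card * m.divisors.card := by
    open Pointwise in
    rw [Nat.divisors_mul]
    exact Finset.card_mul_le
  exact_mod_cast h

theorem tau_div_sum (N : ℕ) :
    ∑ d ∈ Icc 1 N, (d.divisors.card : ℝ) * ((d : ℝ))⁻¹ ≤ (1 + Real.log N) ^ 2 := by
  have h1 : ∑ n ∈ Icc 1 N, (n.divisors.card : ℝ) * ((n : ℝ))⁻¹ =
      ∑ d ∈ Icc 1 N, ∑ m ∈ Icc 1 (N / d), ((d : ℝ))⁻¹ * ((m : ℝ))⁻¹ := by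
    rw [← dsum N fun d m => ((d : ℝ))⁻¹ * ((m : ℝ))⁻¹]
    refine Finset.sum_congr rfl fun n hn => ?_
    have hn1 : 1 ≤ n := (mem_Icc.1 hn).1
    have : ∀ d ∈ n.divisors, ((d : ℝ))⁻¹ * (((n / d : ℕ) : ℝ))⁻¹ = ((n : ℝ))⁻¹ := by
      intro d hd
      rw [← mul_inv, ← Nat.cast_mul, Nat.mul_div_cancel' (Nat.dvd_of_mem_divisors hd)]
    rw [Finset.sum_congr rfl this]
    simp
  rw [h1]
  have h0 : (0 : ℝ) ≤ ∑ a ∈ Icc 1 N, ((a : ℝ))⁻¹ := Finset.sum_nonneg fun _ _ => by positivity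
  calc ∑ d ∈ Icc 1 N, ∑ m ∈ Icc 1 (N / d), ((d : ℝ))⁻¹ * ((m : ℝ))⁻¹
      ≤ ∑ d ∈ Icc 1 N, ∑ m ∈ Icc 1 N, ((d : ℝ))⁻¹ * ((m : ℝ))⁻¹ := by
        refine Finset.sum_le_sum fun d _ => ?_
        exact Finset.sum_le_sum_of_subset_of_nonneg
          (Finset.Icc_subset_Icc_right (Nat.div_le_self N d)) fun _ _ _ => by positivity
    _ = (∑ a ∈ Icc 1 N, ((a : ℝ))⁻¹) ^ 2 := by
        rw [sq, Finset.sum_mul_sum]
    _ ≤ (1 + Real.log N) ^ 2 := pow_le_pow_left₀ h0 (harm N) 2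

theorem ta : StmtTA := by
  refine ⟨1, one_pos, fun N => ?_⟩
  rcases Nat.eq_zero_or_pos N with rfl | hN
  · simp
  have hlog : 0 ≤ Real.log N := Real.log_natCast_nonneg N
  have h1 : ∑ n ∈ Icc 1 N, (n.divisors.card : ℝ) ^ 2 ≤
      ∑ d ∈ Icc 1 N, ∑ m ∈ Icc 1 (N / d), (d.divisors.card : ℝ) * m.divisors.card := by
    rw [← dsum N fun d m => (d.divisors.card : ℝ) * m.divisors.card]
    refine Finset.sum_le_sum fun n _ => ?_
    have h2 : (n.divisors.card : ℝ) ^ 2 = ∑ d ∈ n.divisors, (n.divisors.card : ℝ) := by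
      rw [Finset.sum_const, nsmul_eq_mul, sq]
    rw [h2]
    refine Finset.sum_le_sum fun d hd => ?_
    calc (n.divisors.card : ℝ) = ((d * (n / d)).divisors.card : ℝ) := by
          rw [Nat.mul_div_cancel' (Nat.dvd_of_mem_divisors hd)]
      _ ≤ _ := tau_mul_le d (n / d)
  calc ∑ n ∈ Icc 1 N, (n.divisors.card : ℝ) ^ 2
      ≤ ∑ d ∈ Icc 1 N, ∑ m ∈ Icc 1 (N / d), (d.divisors.card : ℝ) * m.divisors.card := h1
    _ ≤ ∑ d ∈ Icc 1 N, (N * (1 + Real.log N)) * ((d.divisors.card : ℝ) * ((d : ℝ))⁻¹) := by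
        refine Finset.sum_le_sum fun d hd => ?_
        have hd1 : 1 ≤ d := (mem_Icc.1 hd).1
        rw [← Finset.mul_sum]
        have h3 : ∑ m ∈ Icc 1 (N / d), (m.divisors.card : ℝ) ≤
            (N * ((d : ℝ))⁻¹) * (1 + Real.log N) := by
          refine (tau_sum (N / d)).trans ?_
          have h4 : ((N / d : ℕ) : ℝ) ≤ N * ((d : ℝ))⁻¹ := by
            rw [← div_eq_mul_inv]
            exact Nat.cast_div_le
          have h5 : Real.log ((N / d : ℕ) : ℝ) ≤ Real.log N := by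
            rcases Nat.eq_zero_or_pos (N / d) with h0 | h0
            · rw [h0]; simpa using hlog
            · exact Real.log_le_log (by exact_mod_cast h0)
                (by exact_mod_cast Nat.div_le_self N d)
          have h6 : 0 ≤ Real.log ((N / d : ℕ) : ℝ) := Real.log_natCast_nonneg _
          exact mul_le_mul h4 (by linarith) (by linarith) (by positivity)
        calc (d.divisors.card : ℝ) * ∑ m ∈ Icc 1 (N / d), (m.divisors.card : ℝ)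
            ≤ (d.divisors.card : ℝ) * ((N * ((d : ℝ))⁻¹) * (1 + Real.log N)) :=
              mul_le_mul_of_nonneg_left h3 (Nat.cast_nonneg _)
          _ = _ := by ring
    _ = (N * (1 + Real.log N)) * ∑ d ∈ Icc 1 N, (d.divisors.card : ℝ) * ((d : ℝ))⁻¹ := by
        rw [Finset.mul_sum]
    _ ≤ (N * (1 + Real.log N)) * (1 + Real.log N) ^ 2 :=
        mul_le_mul_of_nonneg_left (tau_div_sum N) (by positivity)
    _ = 1 * N * (1 + Real.log N) ^ 3 := by ring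

end Pool.Agent.Helper37.CG
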